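import Pool.Agent.Y101.Sf.Defs

/-!
# Surfaces with `p_g = q = 0` and the self-intersection of the canonical class: definitions
-/

open CategoryTheory AlgebraicGeometry

universe u v w

namespace Pool.Agent.Y101.Sf

open Pool.Agent.H914 Pool.Agent.H914.VarClass Pool.Agent.H914.VarClass.Obj Pool.Agent.W492.BB
  Pool.Agent.TH133

variable {k : Type u} [Field k] {𝒱 : VarClass k} {C : TheoryData.{u, v, 0} 𝒱 ℚ}

/-- Over an algebraically closed field: `U` is the point, the surfaces have infinitely many points,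
and the zero-cycles are combinations of points. -/
structure HasPoints (C : TheoryData.{u, v, 0} 𝒱 ℚ) (U : 𝒱.Obj) : Prop where
  dim : U.dim = 0
  degree : HasDegree C (1 : C.A U) 1
  infinite : ∀ X : 𝒱.Obj, X.dim = 2 → Infinite (U ⟶ X)
  span : ∀ X : 𝒱.Obj, X.dim = 2 → ∀ x : C.A X, C.Deg 2 x →
    x ∈ Submodule.span ℚ {y | ∃ p : U ⟶ X, y = C.down p 1}

/-- The zero-cycles of degree zero on the surface `X` are zero in `CH_0(X)_ℚ`. -/
def TrivialZeroCycles (C : TheoryData.{u, v, 0} 𝒱 ℚ) (X : 𝒱.Obj) : Prop :=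
  ∀ x : C.A X, C.Deg 2 x → HasDegree C x 0 → x = 0

section

variable {K : Type w} [Field K] (H : WeilTheoryData.{u, v, w} C K) (L : ∀ X : 𝒱.Obj, Set (C.A X))
  (can : ∀ X : 𝒱.Obj, C.A X) (U : 𝒱.Obj)

/-- `X` is a surface with `q = 0` and `p_g = 0`: we have `H^1(X) = 0`, and `H^2(X)` is spanned by the
classes of divisors (by the Lefschetz theorem on (1,1) classes this is equivalent to `p_g = 0`). -/
structure IsPgQZero (X : 𝒱.Obj) : Prop where
  dim : X.dim = 2
  h1 : ∀ y : H.A X, H.Deg 1 y → y = 0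
  h2 : ∀ y : H.A X, H.Deg 2 y → y ∈ Submodule.span K {x | ∃ l ∈ L X, x = H.cl l}

/-- Each finite set `z` of points of a surface `X` can be blown up, and for the blow-up `π : S ⟶ X`
the classes in `H^1(S)` are pull-backs from `X`, the classes in `H^2(S)` are sums of pull-backs and
of combinations of classes of divisors. -/
def PointsBlowUp : Prop :=
  ∀ X : 𝒱.Obj, X.dim = 2 → ∀ (n : ℕ) (z : C.A X), IsPointSet C U n z →
    ∃ (S : 𝒱.Obj) (π : S ⟶ X) (e : C.A S), IsBlowUp C L can π z e ∧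
      (∀ y : H.A S, H.Deg 1 y → ∃ y', H.Deg 1 y' ∧ y = H.up π y') ∧
      ∀ y : H.A S, H.Deg 2 y → ∃ y', H.Deg 2 y' ∧
        y - H.up π y' ∈ Submodule.span K {x | ∃ l ∈ L S, x = H.cl l}

/-- Known facts about the surfaces `X` with `p_g = q = 0`. If `X` is not of general type then
the zero-cycles of degree zero are zero (Bloch, Kas and Lieberman). If `X` is of general type, then
for the minimal model `π : X ⟶ X₀` the self-intersection number `k` of the canonical class of `X₀` is
positive; `X₀` has `p_g = q = 0`, and `π_* : CH_0(X) → CH_0(X₀)` is injective. -/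
def GeneralTypeOrKnown : Prop :=
  ∀ X : 𝒱.Obj, IsPgQZero H L X → TrivialZeroCycles C X ∨
    ∃ (X₀ : 𝒱.Obj) (π : X ⟶ X₀) (k : ℕ), IsPgQZero H L X₀ ∧ 1 ≤ k ∧
      HasDegree C (C.mul (can X₀) (can X₀)) k ∧ ∀ a : C.A X, C.Deg 2 a → C.down π a = 0 → a = 0

end

end Pool.Agent.Y101.Sf
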