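import Pool.Agent.Y101.Sf.Core
import Pool.Agent.Y101.Sf.BDefs

/-!
# Surfaces with `p_g = q = 0` and the self-intersection of the canonical class
-/

open CategoryTheory AlgebraicGeometry

universe u v w

namespace Pool.Agent.Y101.Sf

open Pool.Agent.H914 Pool.Agent.H914.VarClass Pool.Agent.H914.VarClass.Obj Pool.Agent.W492.BB
  Pool.Agent.W550.Corr Pool.Agent.TH133

set_option linter.unusedSectionVars false

variable {k : Type u} [Field k] {𝒱 : VarClass k} {C : TheoryData.{u, v, 0} 𝒱 ℚ}
  [hC : IsChowProj C] {L : ∀ X : 𝒱.Obj, Set (C.A X)} {can : ∀ X : 𝒱.Obj, C.A X} {U : 𝒱.Obj}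
  {X S Y : 𝒱.Obj}

include hC

section degree

lemma hasDegree_add {a b : C.A X} {q r : ℚ} (ha : HasDegree C a q) (hb : HasDegree C b r) :
    HasDegree C (a + b) (q + r) := by
  intro Y
  rw [map_add, map_add, map_add, map_add, (ha Y).1, (ha Y).2, (hb Y).1, (hb Y).2, add_smul]
  exact ⟨rfl, rfl⟩

lemma hasDegree_smul {a : C.A X} {q : ℚ} (c : ℚ) (ha : HasDegree C a q) :
    HasDegree C (c • a) (c * q) := by
  intro Y
  rw [map_smul, map_smul, map_smul, map_smul, (ha Y).1, (ha Y).2, smul_smul]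
  exact ⟨rfl, rfl⟩

lemma hasDegree_neg {a : C.A X} {q : ℚ} (ha : HasDegree C a q) : HasDegree C (-a) (-q) := by
  have h := hasDegree_smul (-1) ha
  rwa [neg_one_smul, neg_one_mul] at h

lemma hasDegree_sub {a b : C.A X} {q r : ℚ} (ha : HasDegree C a q) (hb : HasDegree C b r) :
    HasDegree C (a - b) (q - r) := by
  rw [sub_eq_add_neg, sub_eq_add_neg]
  exact hasDegree_add ha (hasDegree_neg hb)

lemma hasDegree_sum {ι : Type*} (s : Finset ι) (f : ι → C.A X) (g : ι → ℚ)
    (h : ∀ i ∈ s, HasDegree C (f i) (g i)) : HasDegree C (∑ i ∈ s, f i) (∑ i ∈ s, g i) := by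
  classical
  induction s using Finset.induction_on with
  | empty => rw [Finset.sum_empty, Finset.sum_empty]; exact hasDegree_zero
  | insert a s ha ih =>
    rw [Finset.sum_insert ha, Finset.sum_insert ha]
    exact hasDegree_add (h a (Finset.mem_insert_self a s))
      (ih fun i hi => h i (Finset.mem_insert_of_mem hi))

/-- Push-forwards preserve degrees. -/
lemma hasDegree_push (f : X ⟶ Y) {a : C.A X} {q : ℚ} (ha : HasDegree C a q) :
    HasDegree C (C.push f a) q := by
  intro Z
  refine ⟨?_, ?_⟩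
  · have h1 : C.pull (fst Y Z) (C.push f a) = C.push (prodMap f (𝟙 Z)) (C.pull (fst X Z) a) :=
      hC.isTheory.hasBaseChange.base_fst f Z a
    have h2 : C.push (snd Y Z) (C.push (prodMap f (𝟙 Z)) (C.pull (fst X Z) a)) =
        C.push (prodMap f (𝟙 Z) ≫ snd Y Z) (C.pull (fst X Z) a) :=
      (hC.isTheory.isFunctor.push_comp _ _ _).symm
    rw [h1, h2, prodMap_snd, Category.comp_id]
    exact (ha Z).1
  · have h1 : C.pull (snd Z Y) (C.push f a) = C.push (prodMap (𝟙 Z) f) (C.pull (snd Z X) a) :=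
      hC.isTheory.hasBaseChange.base_snd f Z a
    have h2 : C.push (fst Z Y) (C.push (prodMap (𝟙 Z) f) (C.pull (snd Z X) a)) =
        C.push (prodMap (𝟙 Z) f ≫ fst Z Y) (C.pull (snd Z X) a) :=
      (hC.isTheory.isFunctor.push_comp _ _ _).symm
    rw [h1, h2, prodMap_fst, Category.comp_id]
    exact (ha Z).2

lemma hasDegree_point (hP : HasPoints C U) (p : U ⟶ X) : HasDegree C (C.down p 1) 1 :=
  hasDegree_push p hP.degree

lemma hasDegree_pointSet (hP : HasPoints C U) {n : ℕ} {z : C.A X} (hz : IsPointSet C U n z) :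
    HasDegree C z n := by
  obtain ⟨x, -, rfl⟩ := hz
  have h := hasDegree_sum Finset.univ (fun i => C.down (x i) 1) (fun _ => (1 : ℚ))
    (fun i _ => hasDegree_point hP (x i))
  simpa using h

end degree

section weil

variable {K : Type w} [Field K] {H : WeilTheoryData.{u, v, w} C K} [hH : IsWeilProj H]

include hH

/-- Pull-backs under blow-ups preserve degrees. -/
lemma hasDegree_pull {π : S ⟶ X} {z : C.A X} {e : C.A S} (h : IsBlowUp C L can π z e)
    {a : C.A X} (ha : C.Deg 2 a) {q : ℚ} (hq : HasDegree C a q) :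
    HasDegree C (C.pull π a) q := by
  obtain ⟨r, hr⟩ := exists_hasDegree (x := C.pull π a)
    (gr_cast (by rw [h.dim]; norm_num) (C.pull_mem π ha))
  have h1 := hasDegree_push π hr
  rw [push_pull_blow h] at h1
  rwa [hasDegree_unique (H := H) h1 hq] at hr

omit hH in
lemma push_mem2 (f : S ⟶ X) (hS : S.dim = 2) (hX : X.dim = 2) {a : C.A S} (ha : C.Deg 2 a) :
    C.Deg 2 (C.push f a) := by
  have h := C.push_mem f ha
  exact gr_cast (by rw [hS, hX]; norm_num) h

/-- The degree of the self-intersection of the canonical class of a blow-up. -/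
lemma hasDegree_can (hP : HasPoints C U) (hD : IsDivisorTheory C L can) (hX : X.dim = 2) {n : ℕ}
    {q : ℚ} (hq : HasDegree C (C.mul (can X) (can X)) q) {π : S ⟶ X} {z : C.A X} {e : C.A S}
    (hz : IsPointSet C U n z) (h : IsBlowUp C L can π z e) :
    HasDegree C (C.mul (can S) (can S)) (q - n) := by
  have hzm := pointSet_mem hP.dim hX hz
  have h1 : C.mul (can S) (can S) = C.pull π (C.mul (can X) (can X) - z) := by
    show can S * can S = C.pull π (can X * can X - z)
    rw [← pow_two, ← pow_two, can_sq hD h hzm]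
  rw [h1]
  have hm : C.Deg 2 (C.mul (can X) (can X)) :=
    mul_mem' (by norm_num) (hD.mem X _ (hD.can_mem X)) (hD.mem X _ (hD.can_mem X))
  exact hasDegree_pull (H := H) h (Submodule.sub_mem _ hm hzm)
    (hasDegree_sub hq (hasDegree_pointSet hP hz))

/-- If the self-intersection of the canonical class vanishes on the blow-ups of `X` in `k` points,
`k ≥ 1`, then the zero-cycles of degree zero on `X` vanish. -/
theorem trivial_of_blow (hP : HasPoints C U) (hD : IsDivisorTheory C L can) (hX : X.dim = 2) (k : ℕ)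
    (hk : 1 ≤ k)
    (h : ∀ z : C.A X, IsPointSet C U k z → ∃ (S : 𝒱.Obj) (π : S ⟶ X) (e : C.A S),
      IsBlowUp C L can π z e ∧ C.mul (can S) (can S) = 0) : TrivialZeroCycles C X := by
  have key : ∀ z : C.A X, IsPointSet C U k z → can X ^ 2 = z := by
    intro z hz
    obtain ⟨S, π, e, hb, h0⟩ := h z hz
    have h1 : C.mul (can S) (can S) = C.pull π (can X ^ 2 - z) := by
      show can S * can S = _
      rw [← pow_two, can_sq hD hb (pointSet_mem hP.dim hX hz)]
    have h2 : C.push π (C.pull π (can X ^ 2 - z)) = 0 := by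
      rw [← h1, h0, map_zero]
    rw [push_pull_blow hb] at h2
    exact sub_eq_zero.1 h2
  have := hP.infinite X hX
  obtain ⟨k', rfl⟩ : ∃ k', k = k' + 1 := ⟨k - 1, by omega⟩
  have hpq : ∀ p q : U ⟶ X, C.down p 1 = C.down q 1 := by
    intro p q
    have hinf : Infinite {r : U ⟶ X // r ∈ ({p, q} : Set (U ⟶ X))ᶜ} :=
      (Set.Finite.infinite_compl (Set.toFinite {p, q})).to_subtype
    obtain f := Infinite.natEmbedding {r : U ⟶ X // r ∈ ({p, q} : Set (U ⟶ X))ᶜ}
    have hset : ∀ r ∈ ({p, q} : Set (U ⟶ X)),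
        IsPointSet C U (k' + 1) (C.down r 1 + ∑ i : Fin k', C.down (f i).1 1) := by
      intro r hr
      refine ⟨Fin.cons r fun i => (f i).1, ?_, ?_⟩
      · rw [Fin.cons_injective_iff]
        refine ⟨?_, fun i j hij => ?_⟩
        · rintro ⟨i, hi⟩
          have hi' : (f i).1 = r := hi
          exact (f i).2 (by rw [hi']; exact hr)
        · have h3 : f i = f j := Subtype.ext hij
          exact Fin.ext (f.injective h3)
      · rw [Fin.sum_univ_succ]
        simp only [Fin.cons_zero, Fin.cons_succ]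
    have h1 := key _ (hset p (Set.mem_insert _ _))
    have h2 := key _ (hset q (Set.mem_insert_of_mem _ rfl))
    rw [h1] at h2
    exact add_right_cancel h2
  intro x hx hx0
  obtain ⟨p⟩ : Nonempty (U ⟶ X) := inferInstance
  have hsp : x ∈ Submodule.span ℚ {C.down p 1} := by
    refine Submodule.span_mono ?_ (hP.span X hX x hx)
    rintro y ⟨q, rfl⟩
    exact Set.mem_singleton_iff.2 (hpq q p)
  obtain ⟨c, rfl⟩ := Submodule.mem_span_singleton.1 hsp
  have h1 := hasDegree_smul c (hasDegree_point hP p)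
  have h2 := hasDegree_unique (H := H) h1 hx0
  rw [mul_one] at h2
  rw [h2, zero_smul]

omit hH in
lemma pgq_blow (hD : IsDivisorTheory C L can) (hH' : IsWeilProj H) {π : S ⟶ X}
    (hX : IsPgQZero H L X) (hS : S.dim = 2)
    (h1 : ∀ y : H.A S, H.Deg 1 y → ∃ y', H.Deg 1 y' ∧ y = H.up π y')
    (h2 : ∀ y : H.A S, H.Deg 2 y → ∃ y', H.Deg 2 y' ∧
      y - H.up π y' ∈ Submodule.span K {x | ∃ l ∈ L S, x = H.cl l}) : IsPgQZero H L S := by
  refine ⟨hS, fun y hy => ?_, fun y hy => ?_⟩
  · obtain ⟨y', hy', rfl⟩ := h1 y hy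
    rw [hX.h1 y' hy']
    exact map_zero _
  · obtain ⟨y', hy', hd⟩ := h2 y hy
    have h3 : ∀ t ∈ Submodule.span K {x | ∃ l ∈ L X, x = H.cl l},
        H.up π t ∈ Submodule.span K {x | ∃ l ∈ L S, x = H.cl l} := by
      intro t h4
      induction h4 using Submodule.span_induction with
      | mem x hx =>
        obtain ⟨l, hl, rfl⟩ := hx
        refine Submodule.subset_span ⟨C.up π l, hD.pull π l hl, ?_⟩
        exact (hH'.isClassMap.cl_pull π l).symm
      | zero => rw [show H.up π (0 : H.A X) = 0 from map_zero _]; exact Submodule.zero_mem _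
      | add x y _ _ hx hy =>
        rw [show H.up π (x + y) = H.up π x + H.up π y from map_add _ _ _]
        exact Submodule.add_mem _ hx hy
      | smul c x _ hx =>
        rw [show H.up π (c • x) = c • H.up π x from map_smul _ _ _]
        exact Submodule.smul_mem _ _ hx
    have h5 := Submodule.add_mem _ hd (h3 y' (hX.h2 y' hy'))
    rwa [sub_add_cancel] at h5

/-- **The local theorem.** -/
theorem local_tfae (hP : HasPoints C U) (hD : IsDivisorTheory C L can)
    (hb : PointsBlowUp H L can U) (hX : X.dim = 2) (k : ℕ) (hk : 1 ≤ k)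
    (hdeg : HasDegree C (C.mul (can X) (can X)) k) :
    List.TFAE [
      TrivialZeroCycles C X,
      ∀ (S : 𝒱.Obj) (π : S ⟶ X) (z : C.A X) (e : C.A S), IsPointSet C U k z →
        IsBlowUp C L can π z e → C.mul (can S) (can S) = 0,
      ∀ (S : 𝒱.Obj) (π : S ⟶ X) (n : ℕ) (z : C.A X) (e : C.A S), IsPointSet C U n z →
        IsBlowUp C L can π z e → ∀ D ∈ L S, HasDegree C (C.mul D D) 0 → C.mul D D = 0] := by
  tfae_have 1 → 3 := by
    intro h S π n z e hz hbl D hDm h0
    have hDD : C.Deg 2 (C.mul D D) := mul_mem' (by norm_num) (hD.mem S D hDm) (hD.mem S D hDm)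
    exact hbl.inj _ hDD (h _ (push_mem2 π hbl.dim hX hDD) (hasDegree_push π h0))
  tfae_have 3 → 2 := by
    intro h S π z e hz hbl
    refine h S π k z e hz hbl _ (hD.can_mem S) ?_
    have h1 := hasDegree_can (H := H) hP hD hX hdeg hz hbl
    rwa [sub_self] at h1
  tfae_have 2 → 1 := by
    intro h
    refine trivial_of_blow (H := H) hP hD hX k hk fun z hz => ?_
    obtain ⟨S, π, e, hbl, -⟩ := hb X hX k z hz
    exact ⟨S, π, e, hbl, h S π z e hz hbl⟩
  tfae_finish

/-- **The global theorem.** -/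
theorem global_tfae (hP : HasPoints C U) (hD : IsDivisorTheory C L can)
    (hb : PointsBlowUp H L can U) (hg : GeneralTypeOrKnown H L can) :
    List.TFAE [
      ∀ X : 𝒱.Obj, IsPgQZero H L X → TrivialZeroCycles C X,
      ∀ S : 𝒱.Obj, IsPgQZero H L S → HasDegree C (C.mul (can S) (can S)) 0 →
        C.mul (can S) (can S) = 0,
      ∀ S : 𝒱.Obj, IsPgQZero H L S → ∀ D ∈ L S, HasDegree C (C.mul D D) 0 → C.mul D D = 0] := by
  tfae_have 1 → 3 := by
    intro h S hS D hDm h0
    exact h S hS _ (mul_mem' (by norm_num) (hD.mem S D hDm) (hD.mem S D hDm)) h0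
  tfae_have 3 → 2 := fun h S hS h0 => h S hS _ (hD.can_mem S) h0
  tfae_have 2 → 1 := by
    intro h X hX
    rcases hg X hX with h1 | ⟨X₀, π₀, k, hX₀, hk, hdeg, hinj⟩
    · exact h1
    · have h2 : TrivialZeroCycles C X₀ := by
        refine trivial_of_blow (H := H) hP hD hX₀.dim k hk fun z hz => ?_
        obtain ⟨S, π, e, hbl, hh1, hh2⟩ := hb X₀ hX₀.dim k z hz
        refine ⟨S, π, e, hbl, h S (pgq_blow hD hH hX₀ hbl.dim hh1 hh2) ?_⟩
        have h3 := hasDegree_can (H := H) hP hD hX₀.dim hdeg hz hbl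
        rwa [sub_self] at h3
      intro x hx h0
      exact hinj x hx (h2 _ (push_mem2 π₀ hX.dim hX₀.dim hx) (hasDegree_push π₀ h0))
  tfae_finish

end weil

end Pool.Agent.Y101.Sf
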