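import Pool.Agent.Y101.Sf.Defs
import Pool.Agent.TH133.Ext

/-!
# Zero-cycles on surfaces and the self-intersection of the canonical class
-/

open CategoryTheory AlgebraicGeometry

universe u v w

namespace Pool.Agent.Y101.Sf

open Pool.Agent.H914 Pool.Agent.H914.VarClass Pool.Agent.H914.VarClass.Obj Pool.Agent.W492.BB
  Pool.Agent.W550.Corr Pool.Agent.TH133

set_option linter.unusedSectionVars false

variable {k : Type u} [Field k] {𝒱 : VarClass k} {C : TheoryData.{u, v, 0} 𝒱 ℚ}
  [hC : IsChowProj C] {L : ∀ X : 𝒱.Obj, Set (C.A X)} {can : ∀ X : 𝒱.Obj, C.A X} {U : 𝒱.Obj}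
  {X S Y : 𝒱.Obj}

include hC

lemma gr_cast {i j : ℤ} (h : i = j) {z : C.A X} (hz : z ∈ C.gr X i) : z ∈ C.gr X j := h ▸ hz

lemma mul_mem' {i j n : ℤ} (h : i + j = n) {a b : C.A X} (ha : C.Deg i a) (hb : C.Deg j b) :
    C.Deg n (a * b) := by
  have h1 := hC.isTheory.isGradedRing.mul_mem ha hb
  exact gr_cast h h1

lemma push_pull_mul (f : S ⟶ X) (a : C.A S) (b : C.A X) :
    C.push f (C.pull f b * a) = b * C.push f a :=
  hC.isTheory.hasProjectionFormula.proj_left f a b

/-- Point sets have codimension two. -/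
lemma pointSet_mem (hU : U.dim = 0) (hX : X.dim = 2) {n : ℕ} {z : C.A X}
    (hz : IsPointSet C U n z) : C.Deg 2 z := by
  obtain ⟨x, -, rfl⟩ := hz
  refine Submodule.sum_mem _ fun i _ => ?_
  have h1 : C.Deg (X := U) 0 1 := hC.isTheory.isGradedRing.one_mem U
  have h2 := C.push_mem (x i) h1
  refine gr_cast ?_ h2
  rw [hU, hX]
  norm_num

/-- The square of `π^* D + e` on a blow-up. -/
lemma sq_eq {π : S ⟶ X} {z : C.A X} {e : C.A S} (hS : S.dim = 2)
    (h1 : C.push π 1 = 1) (h2 : C.push π e = 0) (h3 : C.push π (e * e) = -z)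
    (hinj : ∀ a : C.A S, C.Deg 2 a → C.down π a = 0 → a = 0) (he : C.Deg 1 e)
    {D : C.A X} (hD : C.Deg 1 D) (hz : C.Deg 2 z) :
    (C.pull π D + e) ^ 2 = C.pull π (D ^ 2 - z) := by
  have hpD : C.Deg 1 (C.pull π D) := C.pull_mem π hD
  have hs : C.Deg 1 (C.pull π D + e) := Submodule.add_mem _ hpD he
  apply sub_eq_zero.1
  apply hinj
  · refine Submodule.sub_mem _ ?_ ?_
    · rw [pow_two]
      exact mul_mem' (by norm_num) hs hs
    · apply C.pull_mem π
      refine Submodule.sub_mem _ ?_ hz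
      rw [pow_two]
      exact mul_mem' (by norm_num) hD hD
  · have h4 : (C.pull π D + e) ^ 2 =
        C.pull π (D ^ 2) * 1 + (2 : ℚ) • (C.pull π D * e) + e * e := by
      rw [pow_two, add_mul, mul_add, mul_add, mul_one, ch_comm C e (C.pull π D), map_pow, pow_two,
        two_smul]
      abel
    have h5 : C.pull π (D ^ 2 - z) = C.pull π (D ^ 2 - z) * 1 := (mul_one _).symm
    show C.push π _ = 0
    rw [map_sub, h4, h5, map_add, map_add, map_smul, push_pull_mul, push_pull_mul, push_pull_mul,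
      h1, h2, h3]
    rw [mul_zero, smul_zero, mul_one, mul_one]
    abel

/-- The self-intersection of the canonical class of a blow-up. -/
lemma can_sq (hD : IsDivisorTheory C L can) {π : S ⟶ X} {z : C.A X} {e : C.A S}
    (h : IsBlowUp C L can π z e) (hz : C.Deg 2 z) :
    can S ^ 2 = C.pull π (can X ^ 2 - z) := by
  rw [h.can_eq]
  exact sq_eq h.dim h.down_one h.down_exc h.down_sq h.inj (hD.mem S e h.mem)
    (hD.mem X _ (hD.can_mem X)) hz

/-- The self-intersection of the divisor `π^* D - e` on a blow-up. -/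
lemma div_sq (hD : IsDivisorTheory C L can) {π : S ⟶ X} {z : C.A X} {e : C.A S}
    (h : IsBlowUp C L can π z e) (hz : C.Deg 2 z) {D : C.A X} (hDm : C.Deg 1 D) :
    (C.pull π D + -e) ^ 2 = C.pull π (D ^ 2 - z) := by
  refine sq_eq h.dim h.down_one ?_ ?_ h.inj (Submodule.neg_mem _ (hD.mem S e h.mem)) hDm hz
  · rw [map_neg]
    show -C.down π e = 0
    rw [h.down_exc, neg_zero]
  · rw [neg_mul_neg]
    exact h.down_sq

lemma push_pull_blow {π : S ⟶ X} {z : C.A X} {e : C.A S} (h : IsBlowUp C L can π z e) (a : C.A X) :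
    C.push π (C.pull π a) = a := by
  rw [← mul_one (C.pull π a), push_pull_mul]
  show a * C.down π 1 = a
  rw [h.down_one, mul_one]

/-- **The core.** On surfaces, whether `I`-trivial zero-cycles are `J`-trivial is determined
by the self-intersections of the canonical classes. -/
theorem stable_tfae (hU : U.dim = 0) (hD : IsDivisorTheory C L can) (hc : HasCovers C U L can)
    {I J : ∀ X : 𝒱.Obj, Submodule ℚ (C.A X)} (hI : IsStable C I) (hJ : IsStable C J) :
    List.TFAE [
      ∀ X : 𝒱.Obj, X.dim = 2 → ∀ x : C.A X, C.Deg 2 x → x ∈ I X → x ∈ J X,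
      ∀ X : 𝒱.Obj, X.dim = 2 → ∀ l ∈ L X, ∀ l' ∈ L X, C.mul l l' ∈ I X → C.mul l l' ∈ J X,
      ∀ X : 𝒱.Obj, X.dim = 2 → C.mul (can X) (can X) ∈ I X → C.mul (can X) (can X) ∈ J X] := by
  tfae_have 1 → 2 := fun h X hX l hl l' hl' hi =>
    h X hX _ (mul_mem' (by norm_num) (hD.mem X l hl) (hD.mem X l' hl')) hi
  tfae_have 2 → 3 := fun h X hX hi => h X hX _ (hD.can_mem X) _ (hD.can_mem X) hi
  tfae_have 3 → 1 := by
    intro h X hX x hx hxI
    obtain ⟨l, hl, hcov, heff⟩ := hc.cover X hX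
    obtain ⟨n, hn, m₀, hm⟩ := heff x hx
    obtain ⟨n', hz⟩ := hm (m₀ + 1) (by omega)
    set D : C.A X := can X + (m₀ + 1) • l with hDdef
    set z : C.A X := D ^ 2 - n • x with hzdef
    obtain ⟨Y, f, hf, n'', hz'⟩ := hcov (m₀ + 1) (by omega) n' z hz
    obtain ⟨S, π, e, hb⟩ := hc.blow Y hf.dim n'' (C.up f z) hz'
    have h1 := can_sq hD hb (pointSet_mem hU hf.dim hz')
    have h2 : can Y ^ 2 - C.pull f z = C.pull f (n • x) := by
      rw [hf.can_eq]
      show C.pull f D ^ 2 - C.pull f z = _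
      rw [← map_pow, ← map_sub]
      congr 1
      rw [hzdef]
      abel
    have h3 : C.mul (can S) (can S) = C.pull π (C.pull f (n • x)) := by
      rw [← h2]
      show can S * can S = _
      rw [← pow_two, h1]
    have h4 : C.pull π (C.pull f (n • x)) ∈ I S := by
      apply hI.pull π hb.dim hf.dim
      apply hI.pull f hf.dim hX
      exact (I X).smul_of_tower_mem n hxI
    rw [← h3] at h4
    have h5 := h S hb.dim h4
    rw [h3] at h5
    have h6 := hJ.push π hb.dim hf.dim _ h5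
    have h7 : C.down π (C.pull π (C.pull f (n • x))) = C.pull f (n • x) := push_pull_blow hb _
    rw [h7] at h6
    have h8 := hJ.push f hf.dim hX _ h6
    have h9 : C.down f (C.pull f (n • x)) = ((2 : ℚ) * n) • x := by
      show C.push f (C.pull f (n • x)) = _
      rw [← mul_one (C.pull f (n • x)), push_pull_mul]
      show (n • x) * C.down f 1 = _
      rw [hf.down_one, mul_smul_comm, mul_one, ← Nat.cast_smul_eq_nsmul ℚ n x, smul_smul]
    rw [h9] at h8
    have h10 : ((2 : ℚ) * n) ≠ 0 := by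
      have : (n : ℚ) ≠ 0 := Nat.cast_ne_zero.2 (by omega)
      positivity
    have h11 := Submodule.smul_mem (J X) ((2 : ℚ) * n)⁻¹ h8
    rwa [smul_smul, inv_mul_cancel₀ h10, one_smul] at h11
  tfae_finish

end Pool.Agent.Y101.Sf
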