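import Pool.Agent.TH133.Defs

/-!
# Zero-cycles on surfaces and the self-intersection of the canonical class: definitions
-/

open CategoryTheory AlgebraicGeometry

universe u v w

namespace Pool.Agent.Y101.Sf

open Pool.Agent.H914 Pool.Agent.H914.VarClass Pool.Agent.H914.VarClass.Obj Pool.Agent.W492.BB
  Pool.Agent.TH133

variable {k : Type u} [Field k] {𝒱 : VarClass k}

/-- `z` is the class of a set of `n` distinct points of `X`; the points are morphisms from the point
`U` (the spectrum of the algebraically closed ground field) to `X`. -/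
def IsPointSet (C : TheoryData.{u, v, 0} 𝒱 ℚ) (U : 𝒱.Obj) {X : 𝒱.Obj} (n : ℕ) (z : C.A X) : Prop :=
  ∃ x : Fin n → (U ⟶ X), Function.Injective x ∧ z = ∑ i, C.down (x i) 1

/-- `L X` is the set of the classes of the divisors on `X` and `can X` is the class of a canonical
divisor; divisors can be added, subtracted and pulled back. -/
structure IsDivisorTheory (C : TheoryData.{u, v, 0} 𝒱 ℚ) (L : ∀ X : 𝒱.Obj, Set (C.A X))
    (can : ∀ X : 𝒱.Obj, C.A X) : Prop where
  mem : ∀ X, ∀ l ∈ L X, C.Deg 1 l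
  add : ∀ X, ∀ l ∈ L X, ∀ l' ∈ L X, l + l' ∈ L X
  neg : ∀ X, ∀ l ∈ L X, -l ∈ L X
  pull : ∀ {X Y : 𝒱.Obj} (f : X ⟶ Y), ∀ l ∈ L Y, C.up f l ∈ L X
  can_mem : ∀ X, can X ∈ L X

/-- The surface `S` looks like the blow-up `π : S ⟶ X` of the surface `X` in a finite set of points
with the class `z`, with the exceptional divisor `e`: we have `π_* 1 = 1`, `π_* e = 0`,
`π_* (e ^ 2) = -z`, the map `π_* : CH_0(S) → CH_0(X)` is injective, and the canonical class of `S` is
`π^* (can X) + e`. -/
structure IsBlowUp (C : TheoryData.{u, v, 0} 𝒱 ℚ) (L : ∀ X : 𝒱.Obj, Set (C.A X))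
    (can : ∀ X : 𝒱.Obj, C.A X) {X S : 𝒱.Obj} (π : S ⟶ X) (z : C.A X) (e : C.A S) : Prop where
  dim : S.dim = 2
  mem : e ∈ L S
  down_one : C.down π 1 = 1
  down_exc : C.down π e = 0
  down_sq : C.down π (C.mul e e) = -z
  inj : ∀ a : C.A S, C.Deg 2 a → C.down π a = 0 → a = 0
  can_eq : can S = C.up π (can X) + e

/-- The surface `Y` looks like a double cover `f : Y ⟶ X` of the surface `X` with the canonical class
`f^* D`. -/
structure IsDoubleCover (C : TheoryData.{u, v, 0} 𝒱 ℚ) (can : ∀ X : 𝒱.Obj, C.A X) {X Y : 𝒱.Obj}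
    (f : Y ⟶ X) (D : C.A X) : Prop where
  dim : Y.dim = 2
  down_one : C.down f 1 = (2 : ℚ) • (1 : C.A X)
  can_eq : can Y = C.up f D

/-- Facts about the smooth projective surfaces `X` over an algebraically closed field of
characteristic zero:
* finite sets of points can be blown up;
* there is an (ample) divisor `l` such that for all `m ≥ 1` and each finite set `z` of points there
  is a double cover `Y ⟶ X` (ramified over a curve in the class `2 m l` which avoids `z`) with
  the canonical class `f^* (can X + m l)`, and `f^* z` is a finite set of points of `Y`;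
* for each `x ∈ CH_0(X)_ℚ` there is `n ≥ 1` such that for all large `m` the class
  `(can X + m l) ^ 2 - n x` is the class of a finite set of points (`n x` is the difference of two
  finite sets of points, and the first one lies in a complete intersection of two curves in the class
  `can X + m l`). -/
structure HasCovers (C : TheoryData.{u, v, 0} 𝒱 ℚ) (U : 𝒱.Obj) (L : ∀ X : 𝒱.Obj, Set (C.A X))
    (can : ∀ X : 𝒱.Obj, C.A X) : Prop where
  blow : ∀ X : 𝒱.Obj, X.dim = 2 → ∀ (n : ℕ) (z : C.A X), IsPointSet C U n z →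
    ∃ (S : 𝒱.Obj) (π : S ⟶ X) (e : C.A S), IsBlowUp C L can π z e
  cover : ∀ X : 𝒱.Obj, X.dim = 2 → ∃ l ∈ L X,
    (∀ m : ℕ, 1 ≤ m → ∀ (n : ℕ) (z : C.A X), IsPointSet C U n z → ∃ (Y : 𝒱.Obj) (f : Y ⟶ X),
      IsDoubleCover C can f (can X + m • l) ∧ ∃ n', IsPointSet C U n' (C.up f z)) ∧
    ∀ x : C.A X, C.Deg 2 x → ∃ n : ℕ, 1 ≤ n ∧ ∃ m₀ : ℕ, ∀ m ≥ m₀,
      ∃ n', IsPointSet C U n' ((can X + m • l) ^ 2 - n • x)

/-- A subspace `I X` of `CH_0(X)_ℚ` for each surface `X`, stable under pull-backs and push-forwards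
for morphisms of surfaces. -/
structure IsStable (C : TheoryData.{u, v, 0} 𝒱 ℚ) (I : ∀ X : 𝒱.Obj, Submodule ℚ (C.A X)) : Prop where
  pull : ∀ {X Y : 𝒱.Obj} (f : X ⟶ Y), X.dim = 2 → Y.dim = 2 → ∀ a ∈ I Y, C.up f a ∈ I X
  push : ∀ {X Y : 𝒱.Obj} (f : X ⟶ Y), X.dim = 2 → Y.dim = 2 → ∀ a ∈ I X, C.down f a ∈ I Y

/-- The zero-cycle `α ∈ CH_0(X)_ℚ` lies in the Albanese kernel `F^2 CH_0(X)_ℚ`: it is mapped to zero by
all correspondences `W ∈ CH^1(X × Y)`, `Y` any variety (these map zero-cycles on `X` to divisor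
classes on `Y`; for the trivial ones this says that the degree is zero, and for the Poincaré bundles
that the Albanese image is torsion). -/
structure InAlbKer (C : TheoryData.{u, v, 0} 𝒱 ℚ) {X : 𝒱.Obj} (α : C.A X) : Prop where
  deg : C.Deg X.dim α
  act_eq_zero : ∀ (Y : 𝒱.Obj) (W : C.A (X.prod Y)), C.Deg 1 W → C.act W α = 0

/-- The classical reduction to surfaces: on a variety of dimension at least two each zero-cycle in
the Albanese kernel is the push-forward of a zero-cycle in the Albanese kernel of a surface (a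
complete intersection of hyperplane sections through the given points; its Albanese variety is that
of `X`). -/
def SurfacesSuffice (C : TheoryData.{u, v, 0} 𝒱 ℚ) : Prop :=
  ∀ X : 𝒱.Obj, 2 ≤ X.dim → ∀ x : C.A X, InAlbKer C x →
    ∃ (S : 𝒱.Obj) (g : S ⟶ X) (y : C.A S), S.dim = 2 ∧ InAlbKer C y ∧ x = C.down g y

end Pool.Agent.Y101.Sf
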